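import Pool.Agent.Helper69.UV.Defs
import Pool.Agent.Helper36.UG.Rankin

/-! # UV, blocks R1, R1b, R2, R4, R5: the resonator -/

set_option autoImplicit false
open MeasureTheory Set Filter Topology
open Pool.Agent.Helper69.UV
open Pool.Agent.Helper36.UG (B B_nonneg B_le B_mono one_le_B B_ge sum_transfer)

namespace Pool.Agent.Helper36.UV

variable {δ : ℝ}

theorem PR_prime {T c : ℝ} : ∀ p ∈ PR δ T c, p.Prime := fun _ hp => (Finset.mem_filter.1 hp).2.1

open Classical in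
theorem rr_ne {T c v : ℝ} {n : ℕ} (h : rr δ T c v n ≠ 0) :
    Squarefree n ∧ n.primeFactors ⊆ PR δ T c ∧ (n : ℝ) ≤ T ^ (1 / 2 - δ) := by
  unfold rr at h
  by_contra hn
  rw [if_neg hn] at h
  exact h rfl

/-- R1 -/
theorem rr_supp {T c v : ℝ} {n : ℕ} (h : rr δ T c v n ≠ 0) : 1 ≤ n ∧ n ≤ NR δ T ∧ Squarefree n := by
  obtain ⟨hsq, _, hle⟩ := rr_ne h
  exact ⟨Nat.one_le_iff_ne_zero.2 hsq.ne_zero, Nat.le_floor hle, hsq⟩

/-- R1b -/
theorem rp_le (T c v : ℝ) (p : ℕ) : |sn T c p| ≤ 1 ∧ |rp T c v p| ≤ |v| := by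
  have h1 : |sn T c p| ≤ 1 := by
    unfold sn
    rw [abs_div]
    rcases eq_or_ne (Real.pi * ww T c p) 0 with h | h
    · rw [h]
      simp
    · rw [div_le_one (abs_pos.2 h)]
      exact Real.abs_sin_le_abs
  refine ⟨h1, ?_⟩
  unfold rp
  rw [abs_mul]
  exact mul_le_of_le_one_right (abs_nonneg v) h1

/-- Basic size facts. -/
theorem adm_facts {c0 T c : ℝ} (hδ : 0 < δ) (hδ1 : δ ≤ 1 / 32) (hc0 : 1 ≤ c0) (hT : Real.exp (Real.exp 1) ≤ T)
    (h : Adm δ c0 T c) : 1 < T ∧ 1 ≤ c ∧ 1 ≤ Real.log (Real.log T) ∧ 2 ≤ Real.log T ∧ c ≤ Real.log T ∧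
      64 * (c * Real.log (Real.log T)) ≤ δ ^ 2 * Real.log T := by
  obtain ⟨h1, h2⟩ := h
  have hTpos : 0 < T := (Real.exp_pos _).trans_le hT
  have hL : Real.exp 1 ≤ Real.log T := (Real.le_log_iff_exp_le hTpos).2 hT
  have he : (2:ℝ) ≤ Real.exp 1 := by linarith [Real.add_one_le_exp (1:ℝ)]
  have hLpos : 0 < Real.log T := by linarith
  have hLL : 1 ≤ Real.log (Real.log T) := (Real.le_log_iff_exp_le hLpos).2 hL
  have hT1 : 1 < T := by
    have : Real.exp 0 < Real.exp (Real.exp 1) := Real.exp_lt_exp.2 (by linarith)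
    rw [Real.exp_zero] at this
    linarith
  have hc1 : 1 ≤ c := hc0.trans h1
  refine ⟨hT1, hc1, hLL, by linarith, ?_, h2⟩
  have h3 : δ ^ 2 ≤ 1 := by nlinarith
  nlinarith

theorem sqf_prod {S : Finset ℕ} (h : ∀ q ∈ S, q.Prime) : Squarefree (∏ q ∈ S, q) := by
  refine Finset.squarefree_prod_of_pairwise_isCoprime ?_ fun q hq => (h q hq).squarefree
  intro a ha b hb hab
  exact Nat.coprime_iff_isRelPrime.1 ((Nat.coprime_primes (h a ha) (h b hb)).2 hab)

theorem VV_eq (T c v : ℝ) :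
    VV δ T c v = B (PR δ T c) (fun p => rp T c v p ^ 2 / p) (T ^ (1 / 2 - δ)) := by
  classical
  unfold VV B
  rw [sum_transfer (P := PR δ T c) PR_prime (fun n => rr δ T c v n ^ 2 / n)]
  · refine Finset.sum_congr rfl fun S hS => ?_
    have hSP := Finset.mem_powerset.1 hS
    have hpr : ∀ p ∈ S, p.Prime := fun p hp => PR_prime p (hSP hp)
    have hpf : (∏ p ∈ S, p).primeFactors = S := Nat.primeFactors_prod hpr
    have hcast : ((∏ p ∈ S, p : ℕ) : ℝ) = ∏ p ∈ S, (p : ℝ) := Nat.cast_prod _ _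
    unfold rr
    rw [hpf, hcast]
    by_cases hk : ∏ p ∈ S, (p : ℝ) ≤ T ^ (1 / 2 - δ)
    · rw [if_pos ⟨sqf_prod hpr, hSP, hk⟩, if_pos hk, Finset.prod_div_distrib, Finset.prod_pow]
    · rw [if_neg (fun h => hk h.2.2), if_neg hk]
      simp
  · intro n hn
    have hn' : rr δ T c v n ≠ 0 := by
      intro h
      rw [h] at hn
      simp at hn
    obtain ⟨h1, h2, h3⟩ := rr_supp hn'
    exact ⟨Finset.mem_Icc.2 ⟨h1, h2⟩, h3, (rr_ne hn').2.1⟩

theorem WP_eq {T c v : ℝ} {p : ℕ} (hp : p ∈ PR δ T c) :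
    WP δ T c v p = rp T c v p * B ((PR δ T c).erase p) (fun p => rp T c v p ^ 2 / p) (T ^ (1 / 2 - δ) / p) := by
  classical
  have hpp : p.Prime := PR_prime p hp
  have hp0 : (0:ℝ) < p := by exact_mod_cast hpp.pos
  unfold WP B
  have hQ : ∀ q ∈ (PR δ T c).erase p, q.Prime := fun q hq => PR_prime q (Finset.mem_of_mem_erase hq)
  rw [sum_transfer (P := (PR δ T c).erase p) hQ (fun n => rr δ T c v n * rr δ T c v (p * n) / n), Finset.mul_sum]
  · refine Finset.sum_congr rfl fun S hS => ?_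
    have hSQ := Finset.mem_powerset.1 hS
    have hSP : S ⊆ PR δ T c := hSQ.trans (Finset.erase_subset _ _)
    have hpS : p ∉ S := fun h => Finset.notMem_erase p _ (hSQ h)
    have hpr : ∀ q ∈ S, q.Prime := fun q hq => PR_prime q (hSP hq)
    have hpr' : ∀ q ∈ insert p S, q.Prime := by
      intro q hq
      rcases Finset.mem_insert.1 hq with rfl | hq
      · exact hpp
      · exact hpr q hq
    have hpf : (∏ q ∈ S, q).primeFactors = S := Nat.primeFactors_prod hpr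
    have hins : p * ∏ q ∈ S, q = ∏ q ∈ insert p S, q := (Finset.prod_insert (f := fun q => q) hpS).symm
    have hpf' : (p * ∏ q ∈ S, q).primeFactors = insert p S := by
      rw [hins]
      exact Nat.primeFactors_prod hpr'
    have hsq := sqf_prod hpr
    have hsq' : Squarefree (p * ∏ q ∈ S, q) := by
      rw [hins]
      exact sqf_prod hpr'
    have hSP' : insert p S ⊆ PR δ T c := Finset.insert_subset hp hSP
    have hcast : ((∏ p ∈ S, p : ℕ) : ℝ) = ∏ p ∈ S, (p : ℝ) := Nat.cast_prod _ _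
    have hcast' : ((p * ∏ p ∈ S, p : ℕ) : ℝ) = p * ∏ p ∈ S, (p : ℝ) := by
      rw [Nat.cast_mul, hcast]
    have hpos : 0 ≤ ∏ p ∈ S, (p : ℝ) := Finset.prod_nonneg fun p _ => Nat.cast_nonneg p
    unfold rr
    rw [hpf, hpf', hcast', hcast]
    by_cases hk : ∏ q ∈ S, (q : ℝ) ≤ T ^ (1 / 2 - δ) / p
    · have hk1 : (p : ℝ) * ∏ q ∈ S, (q : ℝ) ≤ T ^ (1 / 2 - δ) := by
        rw [le_div_iff₀ hp0] at hk
        linarith
      have hk2 : ∏ q ∈ S, (q : ℝ) ≤ T ^ (1 / 2 - δ) := by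
        have h1 : (1:ℝ) ≤ p := by exact_mod_cast hpp.one_le
        nlinarith
      rw [if_pos ⟨hsq, hSP, hk2⟩, if_pos ⟨hsq', hSP', hk1⟩, if_pos hk, Finset.prod_insert hpS,
        Finset.prod_div_distrib, Finset.prod_pow]
      ring
    · have h1 : ¬ (Squarefree (p * ∏ q ∈ S, q) ∧ insert p S ⊆ PR δ T c ∧ (p : ℝ) * ∏ q ∈ S, (q : ℝ) ≤ T ^ (1 / 2 - δ)) := by
        intro h
        apply hk
        rw [le_div_iff₀ hp0]
        linarith [h.2.2]
      rw [if_neg h1, if_neg hk]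
      simp
  · intro n hn
    have hn1 : rr δ T c v n ≠ 0 := by
      intro h
      simp only [h, zero_mul, zero_div, ne_eq, not_true_eq_false] at hn
    have hn2 : rr δ T c v (p * n) ≠ 0 := by
      intro h
      simp only [h, mul_zero, zero_div, ne_eq, not_true_eq_false] at hn
    obtain ⟨h1, h2, h3⟩ := rr_supp hn1
    refine ⟨Finset.mem_Icc.2 ⟨h1, h2⟩, h3, ?_⟩
    intro q hq
    refine Finset.mem_erase.2 ⟨?_, (rr_ne hn1).2.1 hq⟩
    rintro rfl
    have hdvd : q ∣ n := Nat.dvd_of_mem_primeFactors hq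
    have hsq := (rr_ne hn2).1
    have := hsq q (Nat.mul_dvd_mul_left q hdvd)
    exact hpp.one_lt.ne' (Nat.isUnit_iff.1 this)

/-- R2 -/
theorem rr_bd (hδ : 0 < δ) (hδ1 : δ ≤ 1 / 32) : ∃ c0 T0 : ℝ, ∀ T, T0 ≤ T → ∀ c, Adm δ c0 T c → ∀ v : ℝ,
    v ^ 2 = (1 - 4 * δ) * c → ∀ n, |rr δ T c v n| ≤ T ^ (δ / 64) ∧ 1 ≤ VV δ T c v := by
  classical
  refine ⟨1, Real.exp (Real.exp 1), fun T hT c hA v hv n => ?_⟩
  obtain ⟨hT1, hc1, hLL, hL, hcL, hcc⟩ := adm_facts hδ hδ1 le_rfl hT hA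
  have hTpos : (0:ℝ) < T := by linarith
  have hcpos : (0:ℝ) < c := by linarith
  have hLpos : 0 < Real.log T := by linarith
  constructor
  · have hT64 : (1:ℝ) ≤ T ^ (δ / 64) := Real.one_le_rpow hT1.le (by positivity)
    by_cases h : rr δ T c v n = 0
    · rw [h, abs_zero]
      linarith
    · obtain ⟨h1, h2, h3⟩ := rr_ne h
      have h4 : rr δ T c v n = ∏ p ∈ n.primeFactors, rp T c v p := by
        unfold rr
        rw [if_pos ⟨h1, h2, h3⟩]
      rw [h4, Finset.abs_prod]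
      have hvc : |v| ≤ √c := by
        rw [← Real.sqrt_sq_eq_abs]
        refine Real.sqrt_le_sqrt ?_
        rw [hv]
        nlinarith
      have hsc : 1 ≤ √c := Real.one_le_sqrt.2 hc1
      have h5 : ∏ p ∈ n.primeFactors, |rp T c v p| ≤ √c ^ n.primeFactors.card := by
        rw [← Finset.prod_const]
        exact Finset.prod_le_prod (fun p _ => abs_nonneg _) fun p _ => (rp_le T c v p).2.trans hvc
      refine h5.trans ?_
      -- the number of prime factors
      have h6 : (n.primeFactors.card : ℝ) ≤ c / (2 * δ) := by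
        have h7 : (T ^ (δ / c)) ^ n.primeFactors.card ≤ T ^ (1 / 2 : ℝ) := by
          calc (T ^ (δ / c)) ^ n.primeFactors.card ≤ ∏ p ∈ n.primeFactors, (p : ℝ) := by
                rw [← Finset.prod_const]
                exact Finset.prod_le_prod (fun p _ => Real.rpow_nonneg hTpos.le _) fun p hp =>
                  (Finset.mem_filter.1 (h2 hp)).2.2.le
            _ = (n : ℝ) := by
                rw [← Nat.cast_prod, Nat.prod_primeFactors_of_squarefree h1]
            _ ≤ T ^ (1 / 2 - δ) := h3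
            _ ≤ T ^ (1 / 2 : ℝ) := Real.rpow_le_rpow_of_exponent_le hT1.le (by linarith)
        rw [← Real.rpow_natCast, ← Real.rpow_mul hTpos.le, Real.rpow_le_rpow_left_iff hT1] at h7
        rw [le_div_iff₀ (by positivity)]
        have h8 : δ / c * (n.primeFactors.card : ℝ) * c = δ * n.primeFactors.card := by
          field_simp
        nlinarith
      have h9 : √c ^ n.primeFactors.card = Real.exp (n.primeFactors.card * (Real.log c / 2)) := by
        rw [← Real.log_sqrt hcpos.le, mul_comm, Real.exp_mul, Real.exp_log (by positivity), Real.rpow_natCast]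
      rw [h9, Real.rpow_def_of_pos hTpos]
      refine Real.exp_le_exp.2 ?_
      have h10 : Real.log c ≤ Real.log (Real.log T) := Real.log_le_log hcpos hcL
      have h11 : 0 ≤ Real.log c := Real.log_nonneg hc1
      calc (n.primeFactors.card : ℝ) * (Real.log c / 2) ≤ c / (2 * δ) * (Real.log c / 2) :=
            mul_le_mul_of_nonneg_right h6 (by positivity)
        _ ≤ c / (2 * δ) * (Real.log (Real.log T) / 2) := by
            refine mul_le_mul_of_nonneg_left ?_ (by positivity)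
            linarith
        _ = (64 * (c * Real.log (Real.log T))) / (256 * δ) := by
            field_simp
            ring
        _ ≤ (δ ^ 2 * Real.log T) / (256 * δ) := by gcongr
        _ = δ * Real.log T / 256 := by
            field_simp
        _ ≤ Real.log T * (δ / 64) := by
            have : 0 < δ * Real.log T := by positivity
            linarith
  · rw [VV_eq]
    exact one_le_B (fun p _ => by positivity) (Real.one_le_rpow hT1.le (by linarith))

/-- The statement of R3. -/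
def R3 (δ : ℝ) : Prop := ∃ C c0 T0 : ℝ, 0 < C ∧ ∀ T, T0 ≤ T → ∀ c, Adm δ c0 T c →
    (∀ p ∈ PR δ T c, p.Prime ∧ Real.log T ^ 4 < p ∧ (p : ℝ) ≤ T ^ (δ / 1000) ∧ δ < ww T c p ∧ ww T c p ≤ 1 / δ) ∧
    1 / 2 ≤ ∑ p ∈ PR δ T c, (1 / p : ℝ) ∧ ∑ p ∈ PR δ T c, (1 / p : ℝ) ≤ C

/-- The statement of R3'. -/
def R3m (δ : ℝ) : Prop := ∃ c0 T0 : ℝ, ∀ T, T0 ≤ T → ∀ c, Adm δ c0 T c →
    1 / 2 - 3 * δ ≤ ∑ p ∈ PR δ T c, sn T c p ^ 2 * ww T c p / p ∧
    ∑ p ∈ PR δ T c, sn T c p ^ 2 * ww T c p / p ≤ 1 / 2 + δ / 10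

theorem Adm.mono {c0 c1 T c : ℝ} (h : c1 ≤ c0) (hA : Adm δ c0 T c) : Adm δ c1 T c := ⟨h.trans hA.1, hA.2⟩

/-- Rankin's trick for the resonator. -/
theorem B_key {T c v : ℝ} (hδ : 0 < δ) (hδ1 : δ ≤ 1 / 32) (hT : 1 < T) (hc : 0 < c) (hv : v ^ 2 = (1 - 4 * δ) * c)
    (hw : ∀ p ∈ PR δ T c, 0 ≤ ww T c p ∧ ww T c p ≤ 1 / δ)
    (hm : ∑ p ∈ PR δ T c, sn T c p ^ 2 * ww T c p / p ≤ 1 / 2 + δ / 10) {P' : Finset ℕ} (hP' : P' ⊆ PR δ T c) {N' : ℝ}
    (hN : T ^ (1 / 2 - 1001 / 1000 * δ) ≤ N') :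
    (1 - Real.exp (-(δ ^ 3 * c / 4))) * ∏ p ∈ P', (1 + rp T c v p ^ 2 / p) ≤ B P' (fun p => rp T c v p ^ 2 / p) N' := by
  have hTpos : (0:ℝ) < T := by linarith
  have hLpos : 0 < Real.log T := Real.log_pos hT
  have hN0 : 0 < N' := (Real.rpow_pos_of_pos hTpos _).trans_le hN
  set κ : ℝ := δ ^ 2 / 2 with hκ
  have hκ0 : 0 < κ := by positivity
  refine B_ge (α := κ * c / Real.log T) (fun p hp => (PR_prime p (hP' hp)).one_le) (fun p _ => by positivity) hN0
    (by positivity) ?_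
  refine Real.exp_le_exp.2 ?_
  -- the sum
  have h1 : ∑ p ∈ P', rp T c v p ^ 2 / p * ((p : ℝ) ^ (κ * c / Real.log T) - 1) ≤
      κ * (1 + δ / 2) * ((1 - 4 * δ) * c) * (1 / 2 + δ / 10) := by
    calc ∑ p ∈ P', rp T c v p ^ 2 / p * ((p : ℝ) ^ (κ * c / Real.log T) - 1)
        ≤ ∑ p ∈ P', κ * (1 + δ / 2) * v ^ 2 * (sn T c p ^ 2 * ww T c p / p) := by
          refine Finset.sum_le_sum fun p hp => ?_
          obtain ⟨hw0, hw1⟩ := hw p (hP' hp)
          have hp0 : (0:ℝ) < p := by exact_mod_cast (PR_prime p (hP' hp)).pos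
          have h2 : (p : ℝ) ^ (κ * c / Real.log T) = Real.exp (κ * ww T c p) := by
            rw [Real.rpow_def_of_pos hp0]
            congr 1
            unfold ww
            field_simp
          have h3 : κ * ww T c p ≤ δ / 2 := by
            calc κ * ww T c p ≤ κ * (1 / δ) := mul_le_mul_of_nonneg_left hw1 hκ0.le
              _ = δ / 2 := by
                  rw [hκ]
                  field_simp
          have h4 : 0 ≤ κ * ww T c p := mul_nonneg hκ0.le hw0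
          have h5 : Real.exp (κ * ww T c p) - 1 ≤ κ * ww T c p * (1 + δ / 2) := by
            have h6 := (abs_le.1 (Real.abs_exp_sub_one_sub_id_le (x := κ * ww T c p)
              (by rw [abs_of_nonneg h4]; linarith))).2
            nlinarith
          rw [h2]
          have h7 : 0 ≤ rp T c v p ^ 2 / (p : ℝ) := by positivity
          calc rp T c v p ^ 2 / p * (Real.exp (κ * ww T c p) - 1) ≤
                rp T c v p ^ 2 / p * (κ * ww T c p * (1 + δ / 2)) := mul_le_mul_of_nonneg_left h5 h7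
            _ = κ * (1 + δ / 2) * v ^ 2 * (sn T c p ^ 2 * ww T c p / p) := by
                unfold rp
                ring
      _ = κ * (1 + δ / 2) * v ^ 2 * ∑ p ∈ P', sn T c p ^ 2 * ww T c p / p := by rw [Finset.mul_sum]
      _ ≤ κ * (1 + δ / 2) * v ^ 2 * ∑ p ∈ PR δ T c, sn T c p ^ 2 * ww T c p / p := by
          refine mul_le_mul_of_nonneg_left ?_ (by positivity)
          refine Finset.sum_le_sum_of_subset_of_nonneg hP' fun p hp _ => ?_
          have := (hw p hp).1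
          positivity
      _ ≤ κ * (1 + δ / 2) * v ^ 2 * (1 / 2 + δ / 10) := mul_le_mul_of_nonneg_left hm (by positivity)
      _ = _ := by rw [hv]
  have h2 : κ * c * (1 / 2 - 1001 / 1000 * δ) ≤ κ * c / Real.log T * Real.log N' := by
    have h3 : (1 / 2 - 1001 / 1000 * δ) * Real.log T ≤ Real.log N' := by
      rw [← Real.log_rpow hTpos]
      exact Real.log_le_log (Real.rpow_pos_of_pos hTpos _) hN
    calc κ * c * (1 / 2 - 1001 / 1000 * δ) = κ * c / Real.log T * ((1 / 2 - 1001 / 1000 * δ) * Real.log T) := by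
          field_simp
      _ ≤ κ * c / Real.log T * Real.log N' := mul_le_mul_of_nonneg_left h3 (by positivity)
  have h3 : (1 + δ / 2) * (1 - 4 * δ) * (1 / 2 + δ / 10) ≤ 1 / 2 - 1001 / 1000 * δ - δ / 2 := by
    nlinarith [mul_pos hδ hδ, mul_pos (mul_pos hδ hδ) hδ]
  have h4 : 0 < κ * c := by positivity
  have h5 : κ * (1 + δ / 2) * ((1 - 4 * δ) * c) * (1 / 2 + δ / 10) ≤ κ * c * (1 / 2 - 1001 / 1000 * δ - δ / 2) := by
    calc κ * (1 + δ / 2) * ((1 - 4 * δ) * c) * (1 / 2 + δ / 10) =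
          κ * c * ((1 + δ / 2) * (1 - 4 * δ) * (1 / 2 + δ / 10)) := by ring
      _ ≤ _ := mul_le_mul_of_nonneg_left h3 h4.le
  have h6 : κ * c * (δ / 2) = δ ^ 3 * c / 4 := by
    rw [hκ]
    ring
  nlinarith

/-- R4 from R3, R3'. -/
theorem WP_bd_of (hδ : 0 < δ) (hδ1 : δ ≤ 1 / 32) (hR3 : R3 δ) (hR3m : R3m δ) : ∃ c0 T0 : ℝ, ∀ T, T0 ≤ T → ∀ c,
    Adm δ c0 T c → ∀ v : ℝ, v ^ 2 = (1 - 4 * δ) * c → ∀ p ∈ PR δ T c,
    (1 - δ) * rp T c v p ^ 2 * VV δ T c v ≤ rp T c v p * WP δ T c v p ∧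
    |WP δ T c v p| ≤ |rp T c v p| * VV δ T c v := by
  obtain ⟨C3, c3, T3, hC3, h3⟩ := hR3
  obtain ⟨c3m, T3m, h3m⟩ := hR3m
  refine ⟨max (max 1 c3) (max c3m (16 / δ ^ 4)), max (max T3 T3m) (max (Real.exp (Real.exp 1)) (Real.exp (4 / δ))),
    fun T hT c hA v hv p hp => ?_⟩
  have hA1 : Adm δ c3 T c := Adm.mono ((le_max_right _ _).trans (le_max_left _ _)) hA
  have hA2 : Adm δ 1 T c := Adm.mono ((le_max_left _ _).trans (le_max_left _ _)) hA
  have hA3 : Adm δ c3m T c := Adm.mono ((le_max_left _ _).trans (le_max_right _ _)) hA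
  have hA4 : Adm δ (16 / δ ^ 4) T c := Adm.mono ((le_max_right _ _).trans (le_max_right _ _)) hA
  obtain ⟨hT1, hc1, hLL, hL, hcL, _⟩ := adm_facts hδ hδ1 le_rfl
    (((le_max_left _ _).trans (le_max_right _ _)).trans hT) hA2
  have hTδ : Real.exp (4 / δ) ≤ T := ((le_max_right _ _).trans (le_max_right _ _)).trans hT
  obtain ⟨hPR, _, hsum⟩ := h3 T (((le_max_left _ _).trans (le_max_left _ _)).trans hT) c hA1
  obtain ⟨_, hmass⟩ := h3m T (((le_max_right _ _).trans (le_max_left _ _)).trans hT) c hA3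
  have hTpos : (0:ℝ) < T := by linarith
  have hcpos : (0:ℝ) < c := by linarith
  have hL4 : 4 / δ ≤ Real.log T := (Real.le_log_iff_exp_le hTpos).2 hTδ
  obtain ⟨hpp, hp4, hpT, _, _⟩ := hPR p hp
  have hp0 : (0:ℝ) < p := by exact_mod_cast hpp.pos
  have hw : ∀ q ∈ PR δ T c, 0 ≤ ww T c q ∧ ww T c q ≤ 1 / δ := fun q hq =>
    ⟨hδ.le.trans (hPR q hq).2.2.2.1.le, (hPR q hq).2.2.2.2⟩
  set g : ℕ → ℝ := fun p => rp T c v p ^ 2 / p with hg
  have hg0 : ∀ q ∈ PR δ T c, 0 ≤ g q := fun q _ => by simp only [hg]; positivity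
  have hg0' : ∀ q ∈ (PR δ T c).erase p, 0 ≤ g q := fun q hq => hg0 q (Finset.mem_of_mem_erase hq)
  have hvc : v ^ 2 ≤ c := by
    rw [hv]
    nlinarith
  -- `g p ≤ δ / 4`
  have hgp : g p ≤ δ / 4 := by
    have h1 : rp T c v p ^ 2 ≤ c := by
      have h2 := (rp_le T c v p).2
      calc rp T c v p ^ 2 = |rp T c v p| ^ 2 := (sq_abs _).symm
        _ ≤ |v| ^ 2 := pow_le_pow_left₀ (abs_nonneg _) h2 2
        _ = v ^ 2 := sq_abs v
        _ ≤ c := hvc
    have h3 : Real.log T * Real.log T ≤ Real.log T ^ 4 := by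
      have h4 : Real.log T ^ 2 ≤ Real.log T ^ 4 := pow_le_pow_right₀ (by linarith) (by norm_num)
      nlinarith
    simp only [hg]
    rw [div_le_iff₀ hp0]
    have h5 : 4 / δ * Real.log T ≤ p := by
      have h6 : 4 / δ * Real.log T ≤ Real.log T * Real.log T := mul_le_mul_of_nonneg_right hL4 (by linarith)
      linarith
    have h7 : Real.log T ≤ δ / 4 * p := by
      have h8 : δ / 4 * (4 / δ * Real.log T) ≤ δ / 4 * p := mul_le_mul_of_nonneg_left h5 (by positivity)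
      have h9 : δ / 4 * (4 / δ * Real.log T) = Real.log T := by field_simp
      linarith
    linarith
  -- the truncated product without `p`
  have hN : T ^ (1 / 2 - 1001 / 1000 * δ) ≤ T ^ (1 / 2 - δ) / p := by
    rw [le_div_iff₀ hp0]
    calc T ^ (1 / 2 - 1001 / 1000 * δ) * p ≤ T ^ (1 / 2 - 1001 / 1000 * δ) * T ^ (δ / 1000) :=
          mul_le_mul_of_nonneg_left hpT (Real.rpow_nonneg hTpos.le _)
      _ = T ^ (1 / 2 - δ) := by
          rw [← Real.rpow_add hTpos]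
          congr 1
          ring
  have h1 := B_key hδ hδ1 hT1 hcpos hv hw hmass (Finset.erase_subset p _) hN
  have hexp : Real.exp (-(δ ^ 3 * c / 4)) ≤ δ / 4 := by
    have h2 : 4 / δ ≤ δ ^ 3 * c / 4 := by
      have h3 : 16 / δ ^ 4 ≤ c := hA4.1
      rw [div_le_iff₀ (by positivity)] at h3
      rw [div_le_iff₀ hδ]
      nlinarith
    have h3 : 4 / δ ≤ Real.exp (δ ^ 3 * c / 4) := by
      have := Real.add_one_le_exp (δ ^ 3 * c / 4)
      linarith
    rw [Real.exp_neg]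
    have h4 : (Real.exp (δ ^ 3 * c / 4))⁻¹ ≤ (4 / δ)⁻¹ := inv_anti₀ (by positivity) h3
    rwa [inv_div] at h4
  have hV := VV_eq (δ := δ) T c v
  have hW := WP_eq (v := v) hp
  have hprod : ∏ q ∈ PR δ T c, (1 + g q) = (1 + g p) * ∏ q ∈ (PR δ T c).erase p, (1 + g q) :=
    (Finset.mul_prod_erase _ _ hp).symm
  have hVle : VV δ T c v ≤ (1 + g p) * ∏ q ∈ (PR δ T c).erase p, (1 + g q) := by
    rw [hV, ← hprod]
    exact B_le hg0 _
  have hpi : 0 < ∏ q ∈ (PR δ T c).erase p, (1 + g q) := by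
    refine Finset.prod_pos fun q hq => ?_
    have := hg0' q hq
    linarith
  have hkey : (1 - δ) * VV δ T c v ≤ B ((PR δ T c).erase p) g (T ^ (1 / 2 - δ) / p) := by
    calc (1 - δ) * VV δ T c v ≤ (1 - δ) * ((1 + g p) * ∏ q ∈ (PR δ T c).erase p, (1 + g q)) :=
          mul_le_mul_of_nonneg_left hVle (by linarith)
      _ = ((1 - δ) * (1 + g p)) * ∏ q ∈ (PR δ T c).erase p, (1 + g q) := by ring
      _ ≤ (1 - Real.exp (-(δ ^ 3 * c / 4))) * ∏ q ∈ (PR δ T c).erase p, (1 + g q) := by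
          refine mul_le_mul_of_nonneg_right ?_ hpi.le
          nlinarith [hg0 p hp]
      _ ≤ _ := h1
  rw [hW]
  constructor
  · calc (1 - δ) * rp T c v p ^ 2 * VV δ T c v = rp T c v p ^ 2 * ((1 - δ) * VV δ T c v) := by ring
      _ ≤ rp T c v p ^ 2 * B ((PR δ T c).erase p) g (T ^ (1 / 2 - δ) / p) :=
          mul_le_mul_of_nonneg_left hkey (sq_nonneg _)
      _ = _ := by ring
  · rw [abs_mul, abs_of_nonneg (B_nonneg hg0' _)]
    refine mul_le_mul_of_nonneg_left ?_ (abs_nonneg _)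
    rw [hV]
    have h2 : T ^ (1 / 2 - δ) / p ≤ T ^ (1 / 2 - δ) :=
      div_le_self (Real.rpow_nonneg hTpos.le _) (by exact_mod_cast hpp.one_le)
    refine (B_mono hg0' h2).trans ?_
    unfold B
    refine Finset.sum_le_sum_of_subset_of_nonneg (Finset.powerset_mono.2 (Finset.erase_subset p _)) fun S hS _ => ?_
    split_ifs
    · exact Finset.prod_nonneg fun q hq => hg0 q (Finset.mem_powerset.1 hS hq)
    · exact le_rfl

/-- R5 from R3, R3'. -/
theorem prod_le_VV_of (hδ : 0 < δ) (hδ1 : δ ≤ 1 / 32) (hR3 : R3 δ) (hR3m : R3m δ) : ∃ C c0 T0 : ℝ, 0 < C ∧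
    ∀ T, T0 ≤ T → ∀ c, Adm δ c0 T c → ∀ v : ℝ, v ^ 2 = (1 - 4 * δ) * c →
    ∏ p ∈ PR δ T c, (1 + (2 + |rp T c v p|) ^ 2 / p + 2 * (2 + 2 * |rp T c v p|) ^ 2 / p ^ 2) ≤
      C * Real.exp (C * √c) * VV δ T c v := by
  obtain ⟨C3, c3, T3, hC3, h3⟩ := hR3
  obtain ⟨c3m, T3m, h3m⟩ := hR3m
  refine ⟨2 * Real.exp (40 * C3) + 4 * C3, max (max 1 c3) (max c3m (16 / δ ^ 4)),
    max (max T3 T3m) (Real.exp (Real.exp 1)), by positivity, fun T hT c hA v hv => ?_⟩
  have hA1 : Adm δ c3 T c := Adm.mono ((le_max_right _ _).trans (le_max_left _ _)) hA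
  have hA2 : Adm δ 1 T c := Adm.mono ((le_max_left _ _).trans (le_max_left _ _)) hA
  have hA3 : Adm δ c3m T c := Adm.mono ((le_max_left _ _).trans (le_max_right _ _)) hA
  have hA4 : Adm δ (16 / δ ^ 4) T c := Adm.mono ((le_max_right _ _).trans (le_max_right _ _)) hA
  obtain ⟨hT1, hc1, hLL, hL, hcL, _⟩ := adm_facts hδ hδ1 le_rfl ((le_max_right _ _).trans hT) hA2
  obtain ⟨hPR, _, hsum⟩ := h3 T (((le_max_left _ _).trans (le_max_left _ _)).trans hT) c hA1
  obtain ⟨_, hmass⟩ := h3m T (((le_max_right _ _).trans (le_max_left _ _)).trans hT) c hA3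
  have hTpos : (0:ℝ) < T := by linarith
  have hcpos : (0:ℝ) < c := by linarith
  have hw : ∀ q ∈ PR δ T c, 0 ≤ ww T c q ∧ ww T c q ≤ 1 / δ := fun q hq =>
    ⟨hδ.le.trans (hPR q hq).2.2.2.1.le, (hPR q hq).2.2.2.2⟩
  set L := Real.log T with hLdef
  set g : ℕ → ℝ := fun p => rp T c v p ^ 2 / p with hg
  have hpos : ∀ p ∈ PR δ T c, (0:ℝ) < p := fun p hp => by exact_mod_cast (hPR p hp).1.pos
  have hg0 : ∀ q ∈ PR δ T c, 0 ≤ g q := fun q _ => by simp only [hg]; positivity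
  have hp1 : ∀ p ∈ PR δ T c, L ^ 4 ≤ (p : ℝ) := fun p hp => (hPR p hp).2.1.le
  have hvc : v ^ 2 ≤ c := by
    rw [hv]
    nlinarith
  have hva : |v| ≤ √c := by
    rw [← Real.sqrt_sq_eq_abs]
    exact Real.sqrt_le_sqrt hvc
  have hr1 : ∀ p, |rp T c v p| ≤ √c := fun p => (rp_le T c v p).2.trans hva
  have hr2 : ∀ p, rp T c v p ^ 2 ≤ c := fun p => by
    calc rp T c v p ^ 2 = |rp T c v p| ^ 2 := (sq_abs _).symm
      _ ≤ √c ^ 2 := pow_le_pow_left₀ (abs_nonneg _) (hr1 p) 2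
      _ = c := Real.sq_sqrt hcpos.le
  have hsq : ∑ p ∈ PR δ T c, (1 / (p : ℝ) ^ 2) ≤ C3 / L ^ 4 := by
    calc ∑ p ∈ PR δ T c, (1 / (p : ℝ) ^ 2) ≤ ∑ p ∈ PR δ T c, 1 / L ^ 4 * (1 / (p : ℝ)) := by
          refine Finset.sum_le_sum fun p hp => ?_
          have h1 := hp1 p hp
          have h2 := hpos p hp
          have h3 : 1 / (p : ℝ) ^ 2 = 1 / (p : ℝ) * (1 / p) := by
            rw [pow_two]
            field_simp
          rw [h3]
          exact mul_le_mul_of_nonneg_right (one_div_le_one_div_of_le (by positivity) h1) (by positivity)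
      _ = 1 / L ^ 4 * ∑ p ∈ PR δ T c, (1 / p : ℝ) := by rw [Finset.mul_sum]
      _ ≤ 1 / L ^ 4 * C3 := mul_le_mul_of_nonneg_left hsum (by positivity)
      _ = C3 / L ^ 4 := by ring
  -- the product on the left
  have hleft : ∏ p ∈ PR δ T c, (1 + (2 + |rp T c v p|) ^ 2 / p + 2 * (2 + 2 * |rp T c v p|) ^ 2 / p ^ 2) ≤
      Real.exp (36 * C3 + 4 * C3 * √c + ∑ p ∈ PR δ T c, g p) := by
    have h1 : ∏ p ∈ PR δ T c, (1 + (2 + |rp T c v p|) ^ 2 / p + 2 * (2 + 2 * |rp T c v p|) ^ 2 / p ^ 2) ≤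
        ∏ p ∈ PR δ T c, Real.exp ((4 + 4 * √c) * (1 / p) + g p + 16 * (1 + c) * (1 / p ^ 2)) := by
      refine Finset.prod_le_prod (fun p _ => by positivity) fun p hp => ?_
      have h2 := hpos p hp
      have h3 := hr1 p
      have h4 := hr2 p
      have h5 : |rp T c v p| ^ 2 = rp T c v p ^ 2 := sq_abs _
      have h6 := abs_nonneg (rp T c v p)
      have h7 : (2 + |rp T c v p|) ^ 2 / p ≤ (4 + 4 * √c) * (1 / p) + g p := by
        simp only [hg]
        rw [mul_one_div, ← add_div]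
        refine div_le_div_of_nonneg_right ?_ h2.le
        nlinarith
      have h8 : 2 * (2 + 2 * |rp T c v p|) ^ 2 / (p : ℝ) ^ 2 ≤ 16 * (1 + c) * (1 / (p : ℝ) ^ 2) := by
        rw [mul_one_div]
        refine div_le_div_of_nonneg_right ?_ (by positivity)
        nlinarith [sq_nonneg (1 - |rp T c v p|)]
      have := Real.add_one_le_exp ((4 + 4 * √c) * (1 / p) + g p + 16 * (1 + c) * (1 / (p : ℝ) ^ 2))
      linarith
    refine h1.trans ?_
    rw [← Real.exp_sum]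
    refine Real.exp_le_exp.2 ?_
    rw [Finset.sum_add_distrib, Finset.sum_add_distrib, ← Finset.mul_sum, ← Finset.mul_sum]
    have h4 : (4 + 4 * √c) * ∑ p ∈ PR δ T c, (1 / p : ℝ) ≤ (4 + 4 * √c) * C3 :=
      mul_le_mul_of_nonneg_left hsum (by positivity)
    have h5 : 16 * (1 + c) * ∑ p ∈ PR δ T c, (1 / (p : ℝ) ^ 2) ≤ 32 * C3 := by
      calc 16 * (1 + c) * ∑ p ∈ PR δ T c, (1 / (p : ℝ) ^ 2) ≤ 16 * (1 + c) * (C3 / L ^ 4) :=
            mul_le_mul_of_nonneg_left hsq (by positivity)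
        _ ≤ 16 * (L + L) * (C3 / L ^ 4) := by
            refine mul_le_mul_of_nonneg_right ?_ (by positivity)
            linarith
        _ = 32 * C3 / L ^ 3 := by
            field_simp
            ring
        _ ≤ 32 * C3 := by
            refine div_le_self (by positivity) ?_
            exact one_le_pow₀ (by linarith)
    linarith
  -- the product on the right
  have hN : T ^ (1 / 2 - 1001 / 1000 * δ) ≤ T ^ (1 / 2 - δ) :=
    Real.rpow_le_rpow_of_exponent_le hT1.le (by linarith)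
  have hright := B_key hδ hδ1 hT1 hcpos hv hw hmass (Finset.Subset.refl _) hN
  have hpi : 0 < ∏ q ∈ PR δ T c, (1 + g q) := by
    refine Finset.prod_pos fun q hq => ?_
    have := hg0 q hq
    linarith
  have hexp2 : Real.exp (-(δ ^ 3 * c / 4)) ≤ 1 / 2 := by
    have h2 : 1 ≤ δ ^ 3 * c / 4 := by
      have h3 : 16 / δ ^ 4 ≤ c := hA4.1
      rw [div_le_iff₀ (by positivity)] at h3
      have h5 : c * δ ^ 4 ≤ c * δ ^ 3 := by
        refine mul_le_mul_of_nonneg_left ?_ hcpos.le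
        exact pow_le_pow_of_le_one hδ.le (by linarith) (by norm_num)
      nlinarith
    have h3 : 2 ≤ Real.exp (δ ^ 3 * c / 4) := by
      have := Real.add_one_le_exp (δ ^ 3 * c / 4)
      linarith
    rw [Real.exp_neg]
    have h4 : (Real.exp (δ ^ 3 * c / 4))⁻¹ ≤ (2:ℝ)⁻¹ := inv_anti₀ (by positivity) h3
    linarith
  have hV : ∏ q ∈ PR δ T c, (1 + g q) ≤ 2 * VV δ T c v := by
    rw [VV_eq]
    have : (1 / 2) * ∏ q ∈ PR δ T c, (1 + g q) ≤ (1 - Real.exp (-(δ ^ 3 * c / 4))) * ∏ q ∈ PR δ T c, (1 + g q) :=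
      mul_le_mul_of_nonneg_right (by linarith) hpi.le
    linarith
  have hexp : Real.exp (∑ p ∈ PR δ T c, g p) ≤ Real.exp C3 * ∏ p ∈ PR δ T c, (1 + g p) := by
    have h1 : ∀ p ∈ PR δ T c, Real.exp (g p) ≤ (1 + g p) * Real.exp (g p ^ 2) := by
      intro p hp
      have h2 := hp1 p hp
      have h3 := hpos p hp
      have hL4 : L ≤ L ^ 4 := le_self_pow₀ (by linarith) (by norm_num)
      have h4 : g p ≤ 1 := by
        simp only [hg]
        rw [div_le_one h3]
        linarith [hr2 p]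
      have h5 := Real.abs_exp_sub_one_sub_id_le (x := g p) (by rw [abs_of_nonneg (hg0 p hp)]; exact h4)
      have h6 := (abs_le.1 h5).2
      have h7 := Real.add_one_le_exp (g p ^ 2)
      have h8 := hg0 p hp
      nlinarith [sq_nonneg (g p)]
    have h2 : Real.exp (∑ p ∈ PR δ T c, g p) ≤ (∏ p ∈ PR δ T c, (1 + g p)) * Real.exp (∑ p ∈ PR δ T c, g p ^ 2) := by
      rw [Real.exp_sum, Real.exp_sum, ← Finset.prod_mul_distrib]
      exact Finset.prod_le_prod (fun p _ => (Real.exp_pos _).le) h1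
    have h3 : ∑ p ∈ PR δ T c, g p ^ 2 ≤ C3 := by
      calc ∑ p ∈ PR δ T c, g p ^ 2 ≤ ∑ p ∈ PR δ T c, c ^ 2 * (1 / (p : ℝ) ^ 2) := by
            refine Finset.sum_le_sum fun p hp => ?_
            simp only [hg]
            rw [div_pow, mul_one_div]
            refine div_le_div_of_nonneg_right ?_ (by positivity)
            exact pow_le_pow_left₀ (sq_nonneg _) (hr2 p) 2
        _ = c ^ 2 * ∑ p ∈ PR δ T c, (1 / (p : ℝ) ^ 2) := by rw [Finset.mul_sum]
        _ ≤ L ^ 2 * (C3 / L ^ 4) := by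
            refine mul_le_mul (pow_le_pow_left₀ hcpos.le hcL 2) hsq (Finset.sum_nonneg fun p _ => by positivity)
              (by positivity)
        _ = C3 / L ^ 2 := by field_simp
        _ ≤ C3 := div_le_self hC3.le (one_le_pow₀ (by linarith))
    calc Real.exp (∑ p ∈ PR δ T c, g p) ≤ (∏ p ∈ PR δ T c, (1 + g p)) * Real.exp (∑ p ∈ PR δ T c, g p ^ 2) := h2
      _ ≤ (∏ p ∈ PR δ T c, (1 + g p)) * Real.exp C3 := mul_le_mul_of_nonneg_left (Real.exp_le_exp.2 h3) hpi.le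
      _ = _ := mul_comm _ _
  have hV0 : 0 ≤ VV δ T c v := by
    rw [VV_eq]
    exact B_nonneg hg0 _
  refine hleft.trans ?_
  have h2 : Real.exp (36 * C3 + 4 * C3 * √c + ∑ p ∈ PR δ T c, g p) =
      Real.exp (36 * C3) * Real.exp (4 * C3 * √c) * Real.exp (∑ p ∈ PR δ T c, g p) := by
    rw [Real.exp_add, Real.exp_add]
  rw [h2]
  have h3 : Real.exp (4 * C3 * √c) ≤ Real.exp ((2 * Real.exp (40 * C3) + 4 * C3) * √c) := by
    refine Real.exp_le_exp.2 (mul_le_mul_of_nonneg_right ?_ (Real.sqrt_nonneg c))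
    have := Real.exp_pos (40 * C3)
    linarith
  have h4 : Real.exp (36 * C3) * (Real.exp C3 * 2) ≤ 2 * Real.exp (40 * C3) + 4 * C3 := by
    have h5 : Real.exp (36 * C3) * Real.exp C3 ≤ Real.exp (40 * C3) := by
      rw [← Real.exp_add]
      exact Real.exp_le_exp.2 (by linarith)
    nlinarith
  calc Real.exp (36 * C3) * Real.exp (4 * C3 * √c) * Real.exp (∑ p ∈ PR δ T c, g p)
      ≤ Real.exp (36 * C3) * Real.exp ((2 * Real.exp (40 * C3) + 4 * C3) * √c) * (Real.exp C3 * (2 * VV δ T c v)) := by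
        refine mul_le_mul (mul_le_mul_of_nonneg_left h3 (Real.exp_pos _).le) ?_ (Real.exp_pos _).le (by positivity)
        exact hexp.trans (mul_le_mul_of_nonneg_left hV (Real.exp_pos _).le)
    _ = Real.exp (36 * C3) * (Real.exp C3 * 2) * Real.exp ((2 * Real.exp (40 * C3) + 4 * C3) * √c) * VV δ T c v := by
        ring
    _ ≤ (2 * Real.exp (40 * C3) + 4 * C3) * Real.exp ((2 * Real.exp (40 * C3) + 4 * C3) * √c) * VV δ T c v := by
        refine mul_le_mul_of_nonneg_right (mul_le_mul_of_nonneg_right h4 (Real.exp_pos _).le) hV0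

end Pool.Agent.Helper36.UV
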