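import Pool.Agent.Helper7.UV.R3
import Pool.Agent.Helper36.UV.Res

/-! # UV, blocks R4, R5 closed -/

set_option autoImplicit false
open MeasureTheory Set Filter Topology
open Pool.Agent.Helper69.UV
open Pool.Agent.Helper36.UG (B B_nonneg B_le B_mono one_le_B B_ge sum_transfer)

namespace Pool.Agent.Helper36.UV

variable {δ : ℝ}

/-- R4 -/
theorem WP_bd (hδ : 0 < δ) (hδ1 : δ ≤ 1 / 32) : ∃ c0 T0 : ℝ, ∀ T, T0 ≤ T → ∀ c, Adm δ c0 T c → ∀ v : ℝ,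
    v ^ 2 = (1 - 4 * δ) * c → ∀ p ∈ PR δ T c,
    (1 - δ) * rp T c v p ^ 2 * VV δ T c v ≤ rp T c v p * WP δ T c v p ∧
    |WP δ T c v p| ≤ |rp T c v p| * VV δ T c v :=
  WP_bd_of hδ hδ1 (Pool.Agent.Helper7.UV.PR_facts hδ hδ1) (Pool.Agent.Helper7.UV.PR_mass hδ hδ1)

/-- R5 -/
theorem prod_le_VV (hδ : 0 < δ) (hδ1 : δ ≤ 1 / 32) : ∃ C c0 T0 : ℝ, 0 < C ∧ ∀ T, T0 ≤ T → ∀ c, Adm δ c0 T c → ∀ v : ℝ,
    v ^ 2 = (1 - 4 * δ) * c →
    ∏ p ∈ PR δ T c, (1 + (2 + |rp T c v p|) ^ 2 / p + 2 * (2 + 2 * |rp T c v p|) ^ 2 / p ^ 2) ≤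
      C * Real.exp (C * √c) * VV δ T c v :=
  prod_le_VV_of hδ hδ1 (Pool.Agent.Helper7.UV.PR_facts hδ hδ1) (Pool.Agent.Helper7.UV.PR_mass hδ hδ1)

/-- At least half of the Euler product is in `VV`. -/
theorem prod_le_two_VV (hδ : 0 < δ) (hδ1 : δ ≤ 1 / 32) : ∃ c0 T0 : ℝ, ∀ T, T0 ≤ T → ∀ c, Adm δ c0 T c → ∀ v : ℝ,
    v ^ 2 = (1 - 4 * δ) * c → ∏ p ∈ PR δ T c, (1 + rp T c v p ^ 2 / p) ≤ 2 * VV δ T c v := by
  obtain ⟨C3, c3, T3, hC3, h3⟩ := Pool.Agent.Helper7.UV.PR_facts hδ hδ1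
  obtain ⟨c3m, T3m, h3m⟩ := Pool.Agent.Helper7.UV.PR_mass hδ hδ1
  refine ⟨max (max 1 c3) (max c3m (16 / δ ^ 4)), max (max T3 T3m) (Real.exp (Real.exp 1)), fun T hT c hA v hv => ?_⟩
  have hA1 : Adm δ c3 T c := Adm.mono ((le_max_right _ _).trans (le_max_left _ _)) hA
  have hA2 : Adm δ 1 T c := Adm.mono ((le_max_left _ _).trans (le_max_left _ _)) hA
  have hA3 : Adm δ c3m T c := Adm.mono ((le_max_left _ _).trans (le_max_right _ _)) hA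
  have hA4 : Adm δ (16 / δ ^ 4) T c := Adm.mono ((le_max_right _ _).trans (le_max_right _ _)) hA
  obtain ⟨hT1, hc1, hLL, hL, hcL, _⟩ := adm_facts hδ hδ1 le_rfl ((le_max_right _ _).trans hT) hA2
  obtain ⟨hPR, _, _⟩ := h3 T (((le_max_left _ _).trans (le_max_left _ _)).trans hT) c hA1
  obtain ⟨_, hmass⟩ := h3m T (((le_max_right _ _).trans (le_max_left _ _)).trans hT) c hA3
  have hcpos : (0:ℝ) < c := by linarith
  have hw : ∀ q ∈ PR δ T c, 0 ≤ ww T c q ∧ ww T c q ≤ 1 / δ := fun q hq =>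
    ⟨hδ.le.trans (hPR q hq).2.2.2.1.le, (hPR q hq).2.2.2.2⟩
  have hN : T ^ (1 / 2 - 1001 / 1000 * δ) ≤ T ^ (1 / 2 - δ) :=
    Real.rpow_le_rpow_of_exponent_le hT1.le (by linarith)
  have hright := B_key hδ hδ1 hT1 hcpos hv hw hmass (Finset.Subset.refl _) hN
  have hpi : 0 < ∏ q ∈ PR δ T c, (1 + rp T c v q ^ 2 / (q : ℝ)) := by
    refine Finset.prod_pos fun q hq => ?_
    positivity
  have hexp2 : Real.exp (-(δ ^ 3 * c / 4)) ≤ 1 / 2 := by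
    have h2 : 1 ≤ δ ^ 3 * c / 4 := by
      have h3 : 16 / δ ^ 4 ≤ c := hA4.1
      rw [div_le_iff₀ (by positivity)] at h3
      have h5 : c * δ ^ 4 ≤ c * δ ^ 3 := by
        refine mul_le_mul_of_nonneg_left ?_ hcpos.le
        exact pow_le_pow_of_le_one hδ.le (by linarith) (by norm_num)
      nlinarith
    have h3 : 2 ≤ Real.exp (δ ^ 3 * c / 4) := by
      have := Real.add_one_le_exp (δ ^ 3 * c / 4)
      linarith
    rw [Real.exp_neg]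
    have h4 : (Real.exp (δ ^ 3 * c / 4))⁻¹ ≤ (2:ℝ)⁻¹ := inv_anti₀ (by positivity) h3
    linarith
  rw [VV_eq]
  have : (1 / 2) * ∏ q ∈ PR δ T c, (1 + rp T c v q ^ 2 / (q : ℝ)) ≤
      (1 - Real.exp (-(δ ^ 3 * c / 4))) * ∏ q ∈ PR δ T c, (1 + rp T c v q ^ 2 / (q : ℝ)) :=
    mul_le_mul_of_nonneg_right (by linarith) hpi.le
  linarith

end Pool.Agent.Helper36.UV
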